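import Pool.Agent.H607R3.OO.Sys

set_option autoImplicit false

open Polynomial

namespace Pool.Agent.H607R3.OO

variable {K : Type} [Field K] [Algebra ℂ K]

/-- The base field `ℂ(x)`. -/
noncomputable abbrev F0 (x : K) : IntermediateField ℂ K := IntermediateField.adjoin ℂ ({x} : Set K)

theorem aeval_mem_F0 (x : K) (p : ℂ[X]) : aeval x p ∈ F0 x := by
  have hx : x ∈ F0 x := IntermediateField.mem_adjoin_simple_self ℂ x
  rw [aeval_eq_sum_range]
  refine sum_mem fun i _ => ?_
  rw [Algebra.smul_def]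
  exact mul_mem (IntermediateField.algebraMap_mem _ _) (pow_mem hx i)

variable {ι : Type} [Fintype ι]

/-- The map sending a tuple of polynomials of bounded degree to the combination. -/
noncomputable def Psi (x : K) (e : ι → K) (d : ι → ℕ) (m : ℕ) :
    ((i : ι) → degreeLT ℂ (m + 1 - d i)) →ₗ[ℂ] K :=
  ∑ i : ι, ((LinearMap.mulRight ℂ (e i)).comp
    ((aeval x).toLinearMap.comp ((degreeLT ℂ (m + 1 - d i)).subtype))).comp (LinearMap.proj i)

theorem Psi_apply (x : K) (e : ι → K) (d : ι → ℕ) (m : ℕ)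
    (p : (i : ι) → degreeLT ℂ (m + 1 - d i)) :
    Psi x e d m p = ∑ i, aeval x (p i : ℂ[X]) * e i := by
  simp [Psi]

/-- The space of combinations. -/
noncomputable def B (x : K) (e : ι → K) (d : ι → ℕ) (m : ℕ) : Submodule ℂ K :=
  LinearMap.range (Psi x e d m)

theorem mem_B {x : K} {e : ι → K} {d : ι → ℕ} {m : ℕ} {f : K} :
    f ∈ B x e d m ↔ ∃ p : ι → ℂ[X], (∀ i, p i ∈ degreeLT ℂ (m + 1 - d i)) ∧
      f = ∑ i, aeval x (p i) * e i := by
  constructor
  · rintro ⟨p, rfl⟩
    exact ⟨fun i => p i, fun i => (p i).2, Psi_apply _ _ _ _ _⟩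
  · rintro ⟨p, hp, rfl⟩
    exact ⟨fun i => ⟨p i, hp i⟩, by rw [Psi_apply]⟩

theorem indep_poly {x : K} (hx : Transcendental ℂ x) {e : ι → K}
    (he : LinearIndependent (F0 x) e) (p : ι → ℂ[X]) (h : ∑ i, aeval x (p i) * e i = 0) :
    ∀ i, p i = 0 := by
  intro i
  rw [Fintype.linearIndependent_iff] at he
  have := he (fun i => ⟨aeval x (p i), aeval_mem_F0 x _⟩) (by
    simpa [Algebra.smul_def] using h) i
  have h2 : aeval x (p i) = 0 := by
    have := congrArg (Subtype.val) this
    simpa using this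
  by_contra hne
  exact hx ⟨p i, hne, h2⟩

theorem Psi_injective {x : K} (hx : Transcendental ℂ x) {e : ι → K}
    (he : LinearIndependent (F0 x) e) (d : ι → ℕ) (m : ℕ) :
    Function.Injective (Psi x e d m) := by
  rw [← LinearMap.ker_eq_bot, LinearMap.ker_eq_bot']
  intro p hp
  rw [Psi_apply] at hp
  have := indep_poly hx he (fun i => (p i : ℂ[X])) hp
  funext i
  exact Subtype.ext (this i)

instance finite_B (x : K) (e : ι → K) (d : ι → ℕ) (m : ℕ) : FiniteDimensional ℂ (B x e d m) := by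
  have : ∀ i, FiniteDimensional ℂ (degreeLT ℂ (m + 1 - d i)) := fun i =>
    LinearEquiv.finiteDimensional (degreeLTEquiv ℂ (m + 1 - d i)).symm
  unfold B
  infer_instance

theorem finrank_degreeLT (n : ℕ) : Module.finrank ℂ (degreeLT ℂ n) = n := by
  rw [LinearEquiv.finrank_eq (degreeLTEquiv ℂ n)]
  simp

theorem finrank_B {x : K} (hx : Transcendental ℂ x) {e : ι → K}
    (he : LinearIndependent (F0 x) e) (d : ι → ℕ) (m : ℕ) :
    Module.finrank ℂ (B x e d m) = ∑ i, (m + 1 - d i) := by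
  have : ∀ i, FiniteDimensional ℂ (degreeLT ℂ (m + 1 - d i)) := fun i =>
    LinearEquiv.finiteDimensional (degreeLTEquiv ℂ (m + 1 - d i)).symm
  unfold B
  rw [LinearMap.finrank_range_of_inj (Psi_injective hx he d m), Module.finrank_pi_fintype]
  exact Finset.sum_congr rfl fun i _ => finrank_degreeLT _

theorem term_mem {x : K} {R : ℕ → Submodule ℂ K} (S : Sys x R) {e : K} {d m : ℕ} (he : e ∈ R d)
    {p : ℂ[X]} (hp : p ∈ degreeLT ℂ (m + 1 - d)) : aeval x p * e ∈ R m := by
  by_cases h0 : p = 0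
  · rw [h0]; simp
  · rw [mem_degreeLT] at hp
    have h1 : p.natDegree < m + 1 - d := (natDegree_lt_iff_degree_lt h0).2 hp
    exact S.mul_mem' (S.aeval_mem (m := m - d) (by omega)) he (by omega)

theorem B_le {x : K} {R : ℕ → Submodule ℂ K} (S : Sys x R) {e : ι → K} {d : ι → ℕ}
    (he : ∀ i, e i ∈ R (d i)) (m : ℕ) : B x e d m ≤ R m := by
  intro f hf
  obtain ⟨p, hp, rfl⟩ := mem_B.1 hf
  exact Submodule.sum_mem _ fun i _ => term_mem S (he i) (hp i)

theorem B_eq {x : K} {R : ℕ → Submodule ℂ K} (S : Sys x R) (hx : Transcendental ℂ x)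
    {e : ι → K} {d : ι → ℕ} (he : ∀ i, e i ∈ R (d i)) (hi : LinearIndependent (F0 x) e) (m : ℕ)
    [FiniteDimensional ℂ (R m)]
    (hf : Module.finrank ℂ (R m) = ∑ i, (m + 1 - d i)) : R m = B x e d m := by
  symm
  apply Submodule.eq_of_le_of_finrank_eq (B_le S he m)
  rw [hf, finrank_B hx hi]

/-- clearing denominators -/
theorem exists_clear {x : K} {e : ι → K} {f : K}
    (hf : f ∈ Submodule.span (F0 x) (Set.range e)) :
    ∃ (q : ℂ[X]) (p : ι → ℂ[X]), aeval x q ≠ 0 ∧ aeval x q * f = ∑ i, aeval x (p i) * e i := by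
  classical
  obtain ⟨c, hc⟩ := (Submodule.mem_span_range_iff_exists_fun (F0 x)).1 hf
  have h1 : ∀ i, ∃ r s : ℂ[X], aeval x s ≠ 0 ∧ (c i : K) = aeval x r / aeval x s := by
    intro i
    obtain ⟨r, s, hrs⟩ := (IntermediateField.mem_adjoin_simple_iff ℂ (c i : K)).1 (c i).2
    by_cases hs : aeval x s = 0
    · refine ⟨0, 1, by simp, ?_⟩
      rw [hrs, hs]; simp
    · exact ⟨r, s, hs, hrs⟩
  choose r s hs hrs using h1
  refine ⟨∏ i, s i, fun i => r i * ∏ j ∈ Finset.univ.erase i, s j, ?_, ?_⟩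
  · rw [map_prod]
    exact Finset.prod_ne_zero_iff.2 fun i _ => hs i
  · rw [← hc, Finset.mul_sum]
    refine Finset.sum_congr rfl fun i _ => ?_
    rw [Algebra.smul_def]
    have h2 : algebraMap (F0 x) K (c i) = (c i : K) := rfl
    rw [h2, hrs, ← Finset.mul_prod_erase Finset.univ s (Finset.mem_univ i)]
    simp only [map_mul]
    field_simp [hs i]

/-- The step lemma: no new element of `R (m+1)` is dependent on the old generators. -/
theorem step {x : K} {R : ℕ → Submodule ℂ K} (S : Sys x R) (hx : Transcendental ℂ x)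
    {e : ι → K} {d : ι → ℕ} (he : ∀ i, e i ∈ R (d i)) {m : ℕ} (hd : ∀ i, d i ≤ m + 1)
    (hR : R m = B x e d m) {f : K} (hf : f ∈ R (m + 1))
    (hs : f ∈ Submodule.span (F0 x) (Set.range e)) : f ∈ B x e d (m + 1) := by
  classical
  obtain ⟨q, p, hq, hqp⟩ := exists_clear hs
  have hq0 : q ≠ 0 := by
    rintro rfl
    exact hq (map_zero _)
  obtain ⟨c, hc⟩ : ∃ c : ℂ, q.eval c ≠ 0 := by
    by_contra hcon
    push Not at hcon
    exact hq0 (Polynomial.funext fun r => by rw [hcon r, eval_zero])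
  -- the correcting element
  set t : ι → ℂ := fun i => (p i).eval c / q.eval c with ht
  have hb : (∑ i, algebraMap ℂ K (t i) * e i) ∈ B x e d (m + 1) := by
    refine mem_B.2 ⟨fun i => C (t i), fun i => ?_, ?_⟩
    · rw [mem_degreeLT]
      refine lt_of_le_of_lt degree_C_le ?_
      have := hd i
      have h2 : 0 < m + 1 + 1 - d i := by omega
      exact_mod_cast h2
    · simp
  have hr : ∀ i, ∃ r : ℂ[X], p i - C (t i) * q = (X - C c) * r := by
    intro i
    have : (X - C c) ∣ (p i - C (t i) * q) := by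
      rw [dvd_iff_isRoot]
      simp [IsRoot, ht]
      field_simp
      ring
    exact this
  choose r hr using hr
  have hxc : x - algebraMap ℂ K c ≠ 0 := by
    intro h0
    apply hx
    refine ⟨X - C c, X_sub_C_ne_zero c, ?_⟩
    simp [h0]
  have hg : (f - ∑ i, algebraMap ℂ K (t i) * e i) / (x - algebraMap ℂ K c) ∈ R m := by
    refine S.sat_point c q hc (N := ∑ i, ((r i).natDegree + d i)) ?_ ?_
    · rw [mul_div_cancel₀ _ hxc]
      exact (R _).sub_mem hf (B_le S he _ hb)
    · have h1 : aeval x q * ((f - ∑ i, algebraMap ℂ K (t i) * e i) / (x - algebraMap ℂ K c)) =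
          ∑ i, aeval x (r i) * e i := by
        rw [mul_div_assoc', div_eq_iff hxc, mul_sub, hqp, Finset.mul_sum, Finset.sum_mul,
          ← Finset.sum_sub_distrib]
        refine Finset.sum_congr rfl fun i _ => ?_
        have := congrArg (aeval x) (hr i)
        simp only [map_sub, map_mul, aeval_C, aeval_X] at this
        linear_combination (e i) * this
      rw [h1]
      refine Submodule.sum_mem _ fun i _ => ?_
      refine S.mono ?_ (S.mul_mem (S.aeval_mem (le_refl _)) (he i))
      exact Finset.single_le_sum (f := fun i => (r i).natDegree + d i)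
        (fun _ _ => Nat.zero_le _) (Finset.mem_univ i)
  rw [hR] at hg
  obtain ⟨g, hg1, hg2⟩ := mem_B.1 hg
  have h2 : f = (∑ i, algebraMap ℂ K (t i) * e i) +
      (x - algebraMap ℂ K c) * ∑ i, aeval x (g i) * e i := by
    rw [← hg2, mul_div_cancel₀ _ hxc]
    ring
  rw [h2]
  refine Submodule.add_mem _ hb (mem_B.2 ⟨fun i => (X - C c) * g i, fun i => ?_, ?_⟩)
  · have h3 := hg1 i
    by_cases h0 : g i = 0
    · simp [h0]
    · rw [mem_degreeLT] at h3 ⊢
      rw [degree_mul, degree_X_sub_C, degree_eq_natDegree h0]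
      rw [degree_eq_natDegree h0] at h3
      have h4 : (g i).natDegree < m + 1 - d i := by exact_mod_cast h3
      have h5 : 1 + (g i).natDegree < m + 1 + 1 - d i := by omega
      exact_mod_cast h5
  · rw [Finset.mul_sum]
    refine Finset.sum_congr rfl fun i _ => ?_
    simp only [map_sub, map_mul, aeval_C, aeval_X]
    ring

end Pool.Agent.H607R3.OO
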