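import Pool.Agent.H607R3.OO.Basis

set_option autoImplicit false

open Polynomial

namespace Pool.Agent.H607R3.OO

variable {K : Type} [Field K] [Algebra ℂ K]

/-- Polynomials in `s` of degree less than `n` over the field `F`. -/
noncomputable def A (F : IntermediateField ℂ K) (s : K) (n : ℕ) : Submodule F K :=
  (degreeLT F n).map (aeval s : F[X] →ₐ[F] K).toLinearMap

/-- `f` is a polynomial in `s` of degree `n` with leading coefficient `c`. -/
def Ld (F : IntermediateField ℂ K) (s : K) (n : ℕ) (c f : K) : Prop :=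
  c ∈ F ∧ f - c * s ^ n ∈ A F s n

variable {F : IntermediateField ℂ K} {s : K}

theorem mem_A {n : ℕ} {f : K} : f ∈ A F s n ↔ ∃ p : F[X], p.degree < n ∧ aeval s p = f := by
  unfold A
  rw [Submodule.mem_map]
  simp only [mem_degreeLT, AlgHom.toLinearMap_apply]

theorem A_mono {m n : ℕ} (h : m ≤ n) : A F s m ≤ A F s n :=
  Submodule.map_mono (degreeLT_mono h)

theorem A_mul {m n l : ℕ} {f g : K} (hf : f ∈ A F s m) (hg : g ∈ A F s n) (h : m + n ≤ l + 1) :
    f * g ∈ A F s l := by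
  obtain ⟨p, hp, rfl⟩ := mem_A.1 hf
  obtain ⟨q, hq, rfl⟩ := mem_A.1 hg
  refine mem_A.2 ⟨p * q, ?_, map_mul _ _ _⟩
  by_cases hp0 : p = 0
  · simp [hp0]
  by_cases hq0 : q = 0
  · simp [hq0]
  rw [degree_mul, degree_eq_natDegree hp0, degree_eq_natDegree hq0]
  rw [degree_eq_natDegree hp0] at hp
  rw [degree_eq_natDegree hq0] at hq
  have h1 : p.natDegree < m := by exact_mod_cast hp
  have h2 : q.natDegree < n := by exact_mod_cast hq
  have h3 : p.natDegree + q.natDegree < l := by omega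
  exact_mod_cast h3

theorem pow_mem_A {i n : ℕ} (h : i < n) : s ^ i ∈ A F s n :=
  mem_A.2 ⟨X ^ i, by rw [degree_X_pow]; exact_mod_cast h, by simp⟩

theorem const_mem_A {n : ℕ} (h : 0 < n) {c : K} (hc : c ∈ F) : c ∈ A F s n :=
  mem_A.2 ⟨C ⟨c, hc⟩, lt_of_le_of_lt degree_C_le (by exact_mod_cast h), by
    rw [aeval_C]; rfl⟩

theorem cmul_mem_A {n : ℕ} {c f : K} (hc : c ∈ F) (hf : f ∈ A F s n) : c * f ∈ A F s n := by
  have := (A F s n).smul_mem (⟨c, hc⟩ : F) hf
  rwa [Algebra.smul_def] at this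

theorem pow_not_mem_A [FiniteDimensional F K] {n : ℕ} (h : n < (minpoly F s).natDegree) :
    s ^ n ∉ A F s n := by
  intro hmem
  obtain ⟨p, hp, hps⟩ := mem_A.1 hmem
  have hm : (X ^ n - p).Monic := monic_X_pow_sub (by
    rcases Nat.eq_zero_or_pos n with h0 | h0
    · subst h0
      have : p = 0 := by
        rw [← degree_eq_bot]
        by_contra hb
        have h1 : 0 ≤ p.degree := zero_le_degree_iff.2 (fun h2 => hb (degree_eq_bot.2 h2))
        exact absurd (lt_of_le_of_lt h1 hp) (by simp)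
      rw [this]; simp
    · exact hp)
  have h0 : aeval s (X ^ n - p) = 0 := by simp [hps]
  have h1 := minpoly.degree_le_of_ne_zero F s hm.ne_zero h0
  have h2 : ((X : F[X]) ^ n - p).degree ≤ (n : WithBot ℕ) := by
    refine (degree_sub_le _ _).trans ?_
    rw [degree_X_pow]
    exact max_le (le_refl _) hp.le
  have h3 := h1.trans h2
  rw [degree_eq_natDegree (minpoly.ne_zero (Algebra.IsIntegral.isIntegral s))] at h3
  have h4 : (minpoly F s).natDegree ≤ n := by exact_mod_cast h3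
  omega

namespace Ld

theorem mem {n : ℕ} {c f : K} (h : Ld F s n c f) : f ∈ A F s (n + 1) := by
  have : f = (f - c * s ^ n) + c * s ^ n := by ring
  rw [this]
  exact Submodule.add_mem _ (A_mono (Nat.le_succ n) h.2)
    (cmul_mem_A h.1 (pow_mem_A (Nat.lt_succ_self n)))

theorem mul {m n : ℕ} {c c' f g : K} (hf : Ld F s m c f) (hg : Ld F s n c' g) :
    Ld F s (m + n) (c * c') (f * g) := by
  refine ⟨mul_mem hf.1 hg.1, ?_⟩
  have : f * g - c * c' * s ^ (m + n) =
      (f - c * s ^ m) * g + (c * s ^ m) * (g - c' * s ^ n) := by ring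
  rw [this]
  refine Submodule.add_mem _ (A_mul hf.2 hg.mem (by omega)) (A_mul
    (cmul_mem_A hf.1 (pow_mem_A (Nat.lt_succ_self m))) hg.2 (by omega))

theorem add {n : ℕ} {c f g : K} (hf : Ld F s n c f) (hg : g ∈ A F s n) :
    Ld F s n c (f + g) := by
  refine ⟨hf.1, ?_⟩
  have : f + g - c * s ^ n = (f - c * s ^ n) + g := by ring
  rw [this]
  exact Submodule.add_mem _ hf.2 hg

theorem cmul {n : ℕ} {r c f : K} (hr : r ∈ F) (hf : Ld F s n c f) :
    Ld F s n (r * c) (r * f) := by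
  refine ⟨mul_mem hr hf.1, ?_⟩
  have : r * f - r * c * s ^ n = r * (f - c * s ^ n) := by ring
  rw [this]
  exact cmul_mem_A hr hf.2

theorem of_cmul {n : ℕ} {r c f : K} (hr : r ∈ F) (h0 : r ≠ 0) (hf : Ld F s n c (r * f)) :
    Ld F s n (r⁻¹ * c) f := by
  have := hf.cmul (inv_mem hr)
  rwa [← mul_assoc, inv_mul_cancel₀ h0, one_mul] at this

theorem eq_zero [FiniteDimensional F K] {n : ℕ} (h : n < (minpoly F s).natDegree) {c f : K}
    (hf : Ld F s n c f) (hA : f ∈ A F s n) : c = 0 := by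
  by_contra hc
  apply pow_not_mem_A h
  have h1 : c * s ^ n ∈ A F s n := by
    have : c * s ^ n = f - (f - c * s ^ n) := by ring
    rw [this]
    exact Submodule.sub_mem _ hA hf.2
  have h2 := cmul_mem_A (inv_mem hf.1) h1
  rwa [← mul_assoc, inv_mul_cancel₀ hc, one_mul] at h2

theorem s_pow (n : ℕ) : Ld F s n 1 (s ^ n) := by
  refine ⟨one_mem _, ?_⟩
  simp

theorem s_one : Ld F s 1 1 s := by
  have := s_pow (F := F) (s := s) 1
  simpa using this

end Ld

theorem span_le_A {n : ℕ} {ι : Type} {e : ι → K} (h : ∀ i, e i ∈ A F s n) :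
    Submodule.span F (Set.range e) ≤ A F s n := by
  rw [Submodule.span_le]
  rintro _ ⟨i, rfl⟩
  exact h i

end Pool.Agent.H607R3.OO
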