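import Pool.Agent.H607R3.OO.Lead

set_option autoImplicit false

open Polynomial

namespace Pool.Agent.H607R3.OO

variable {K : Type} [Field K] [Algebra ℂ K]

/-- The data at the special point of the line, where the linear form `l` vanishes. -/
structure Ctx (x : K) (R : ℕ → Submodule ℂ K) (s0 l L s u w : K) : Prop where
  S : Sys x R
  deg : 5 < (minpoly (F0 x) s0).natDegree
  h1 : (1 : K) ∈ Submodule.span ℂ ({l, L} : Set K)
  hx : x ∈ Submodule.span ℂ ({l, L} : Set K)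
  hl : l ∈ R 1
  hL : L ∈ R 1
  hlF : l ∈ F0 x
  hLF : L ∈ F0 x
  hl0 : l ≠ 0
  hs : s ∈ R 4
  hu : u ∈ R 6
  hw : w ∈ R 9
  ls : Ld (F0 x) s0 1 1 s
  lu : ∃ c, c ≠ 0 ∧ Ld (F0 x) s0 2 c u
  h3 : ∀ f ∈ R 3, f ∈ F0 x
  h5 : ∀ f ∈ R 5, f ∈ A (F0 x) s0 2
  h11 : ∀ f ∈ R 11, f ∈ A (F0 x) s0 4
  h14 : ∀ f ∈ R 14, f ∈ A (F0 x) s0 5

variable {x : K} {R : ℕ → Submodule ℂ K} {s0 l L s u w : K}

theorem const_mem_F0 (c : ℂ) : algebraMap ℂ K c ∈ F0 x := IntermediateField.algebraMap_mem _ _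

theorem two_ne_zero_K : (2 : K) ≠ 0 := by
  have h : algebraMap ℂ K 2 ≠ 0 := by
    rw [Ne, FaithfulSMul.algebraMap_eq_zero_iff]
    exact two_ne_zero
  rwa [map_ofNat] at h

namespace Ctx

theorem s_not_mem [FiniteDimensional (F0 x) K] (D : Ctx x R s0 l L s u w) : s ∉ F0 x := by
  intro h
  have h1 : s ∈ A (F0 x) s0 1 := const_mem_A one_pos h
  have := D.ls.eq_zero (by have := D.deg; omega) h1
  exact one_ne_zero this

/-- the double root case -/
theorem caseII [FiniteDimensional (F0 x) K] (D : Ctx x R s0 l L s u w) (β a₀ b₀ c₀ : ℂ)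
    (N1 : s ^ 2 = algebraMap ℂ K β * l * L ^ 7 + l ^ 2 * u)
    (N2 : l * w = (s + algebraMap ℂ K a₀ * L ^ 4) * u + algebraMap ℂ K b₀ * L ^ 6 * s +
      algebraMap ℂ K c₀ * L ^ 10) : False := by
  have S := D.S
  have hl0 := D.hl0
  have hs := D.hs
  have hu := D.hu
  have hw := D.hw
  have hl := D.hl
  have hL := D.hL
  by_cases hβ : β = 0
  · -- the square of `s / l` is `u`
    subst hβ
    have h1 : (s / l) * (s / l) ∈ R (2 * 3) := by
      have : (s / l) * (s / l) = u := by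
        field_simp
        rw [N1, map_zero]
        ring
      rw [this]
      exact hu
    have h2 := D.h3 _ (S.sq h1)
    apply D.s_not_mem
    have : s = s / l * l := by field_simp
    rw [this]
    exact mul_mem h2 D.hlF
  have hβK : algebraMap ℂ K β ≠ 0 := by
    rw [Ne, FaithfulSMul.algebraMap_eq_zero_iff]
    exact hβ
  have hE1 : algebraMap ℂ K β * L ^ 7 + l * u ∈ R 7 := by
    refine (R _).add_mem (S.mul_mem' (S.const_mem _ 0) (S.pow_mem1 hL 7) (by norm_num)) ?_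
    exact S.mul_mem' hl hu (by norm_num)
  have hE2 : u + algebraMap ℂ K b₀ * L ^ 6 ∈ R 6 :=
    (R _).add_mem hu (S.mul_mem' (S.const_mem _ 0) (S.pow_mem1 hL 6) (by norm_num))
  by_cases ha : a₀ = 0
  · subst ha
    rw [map_zero] at N2
    -- first `c₀ = 0`
    have hc : c₀ = 0 := by
      by_contra hc
      have hcK : algebraMap ℂ K c₀ ≠ 0 := by
        rw [Ne, FaithfulSMul.algebraMap_eq_zero_iff]
        exact hc
      have key : algebraMap ℂ K c₀ * (L ^ 10 * (s / l)) =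
          w * s - (algebraMap ℂ K β * L ^ 7 + l * u) * (u + algebraMap ℂ K b₀ * L ^ 6) := by
        apply mul_left_cancel₀ hl0
        have h0 : l * (algebraMap ℂ K c₀ * (L ^ 10 * (s / l))) =
            algebraMap ℂ K c₀ * L ^ 10 * s := by field_simp
        rw [h0]
        linear_combination (-s) * N2 - (u + algebraMap ℂ K b₀ * L ^ 6) * N1
      have h1 : L ^ 10 * (s / l) ∈ R (3 + 10) := by
        have : L ^ 10 * (s / l) = algebraMap ℂ K (c₀⁻¹) *
            (w * s - (algebraMap ℂ K β * L ^ 7 + l * u) * (u + algebraMap ℂ K b₀ * L ^ 6)) := by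
          rw [← key, map_inv₀]
          field_simp
        rw [this]
        refine S.mul_mem' (S.const_mem _ 0) ((R 13).sub_mem ?_ ?_) (by norm_num)
        · exact S.mul_mem' hw hs (by norm_num)
        · exact S.mul_mem' hE1 hE2 (by norm_num)
      have h2 : s / l ∈ R 3 := S.sat3 D.h1 D.hx hL 10
        (by have : l * (s / l) = s := by field_simp
            rw [this]; exact hs) h1
      apply D.s_not_mem
      have : s = s / l * l := by field_simp
      rw [this]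
      exact mul_mem (D.h3 _ h2) D.hlF
    subst hc
    rw [map_zero] at N2
    set v := u + algebraMap ℂ K b₀ * L ^ 6 with hv
    have hlw : l * w = s * v := by rw [N2, hv]; ring
    have key : algebraMap ℂ K β * (L ^ 7 * (v * v / l)) = w * w - u * (v * v) := by
      apply mul_left_cancel₀ hl0
      apply mul_left_cancel₀ hl0
      have h0 : l * (l * (algebraMap ℂ K β * (L ^ 7 * (v * v / l)))) =
          l * (algebraMap ℂ K β * L ^ 7 * (v * v)) := by field_simp
      rw [h0]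
      linear_combination (-(v * v)) * N1 * 1 - (l * w + s * v) * hlw
    have h1 : L ^ 7 * (v * v / l) ∈ R (11 + 7) := by
      have : L ^ 7 * (v * v / l) = algebraMap ℂ K (β⁻¹) * (w * w - u * (v * v)) := by
        rw [← key, map_inv₀]
        field_simp
      rw [this]
      refine S.mul_mem' (S.const_mem _ 0) ((R 18).sub_mem ?_ ?_) (by norm_num)
      · exact S.mul_mem' hw hw (by norm_num)
      · exact S.mul_mem' hu (S.mul_mem hE2 hE2) (by norm_num)
    have h2 : v * v / l ∈ R 11 := S.sat3 D.h1 D.hx hL 7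
      (by have : l * (v * v / l) = v * v := by field_simp
          rw [this]; exact S.mul_mem' hE2 hE2 (by norm_num)) h1
    obtain ⟨c, hc0, hc⟩ := D.lu
    have hvl : Ld (F0 x) s0 2 c v := hc.add
      (const_mem_A two_pos (mul_mem (const_mem_F0 _) (pow_mem D.hLF 6)))
    have h3 : Ld (F0 x) s0 4 (l⁻¹ * (c * c)) (l⁻¹ * (v * v)) :=
      (hvl.mul hvl).cmul (inv_mem D.hlF)
    have h4 : l⁻¹ * (v * v) ∈ A (F0 x) s0 4 := by
      have := D.h11 _ h2
      rwa [div_eq_inv_mul] at this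
    have h5 := h3.eq_zero (by have := D.deg; omega) h4
    exact (mul_ne_zero (inv_ne_zero hl0) (mul_ne_zero hc0 hc0)) h5
  · have haK : algebraMap ℂ K a₀ ≠ 0 := by
      rw [Ne, FaithfulSMul.algebraMap_eq_zero_iff]
      exact ha
    set a := algebraMap ℂ K a₀ with hadef
    set b := algebraMap ℂ K b₀ with hbdef
    set c := algebraMap ℂ K c₀ with hcdef
    set f := (a ^ 2 * u - (c - a * b) * L ^ 2 * s + a * c * L ^ 6) / l with hf
    have hlf : l * f = a ^ 2 * u - (c - a * b) * L ^ 2 * s + a * c * L ^ 6 := by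
      rw [hf]; field_simp
    have haR : a ∈ R 0 := S.const_mem _ 0
    have hbR : b ∈ R 0 := S.const_mem _ 0
    have hcR : c ∈ R 0 := S.const_mem _ 0
    have key : L ^ 8 * f = (algebraMap ℂ K β * L ^ 7 + l * u) * (u + b * L ^ 6) -
        w * (s - a * L ^ 4) := by
      apply mul_left_cancel₀ hl0
      have h0 : l * (L ^ 8 * f) = L ^ 8 * (l * f) := by ring
      rw [h0, hlf]
      linear_combination (s - a * L ^ 4) * N2 + (u + b * L ^ 6) * N1
    have h1 : L ^ 8 * f ∈ R (5 + 8) := by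
      rw [key]
      refine (R 13).sub_mem (S.mul_mem' hE1 hE2 (by norm_num)) ?_
      refine S.mul_mem' hw ((R 4).sub_mem hs ?_) (by norm_num)
      exact S.mul_mem' haR (S.pow_mem1 hL 4) (by norm_num)
    have h2 : l * f ∈ R (5 + 1) := by
      rw [hlf]
      refine (R 6).add_mem ((R 6).sub_mem ?_ ?_) ?_
      · exact S.mul_mem' (m := 0) (by simpa using S.pow_mem haR 2) hu (by norm_num)
      · refine S.mul_mem' (m := 2) ?_ hs (by norm_num)
        refine S.mul_mem' ((R 0).sub_mem hcR (S.mul_mem haR hbR)) (S.pow_mem1 hL 2) (by norm_num)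
      · exact S.mul_mem' (S.mul_mem haR hcR) (S.pow_mem1 hL 6) (by norm_num)
    have h3 := D.h5 _ (S.sat3 D.h1 D.hx hL 8 h2 h1)
    obtain ⟨e, he0, he⟩ := D.lu
    have h4 : u ∈ A (F0 x) s0 2 := by
      have : u = (a ^ 2)⁻¹ * (l * f + ((c - a * b) * L ^ 2 * s - a * c * L ^ 6)) := by
        rw [hlf]; field_simp; ring
      rw [this]
      refine cmul_mem_A (inv_mem (pow_mem (const_mem_F0 _) 2)) (Submodule.add_mem _
        (cmul_mem_A D.hlF h3) (Submodule.sub_mem _ ?_ ?_))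
      · refine cmul_mem_A (mul_mem (sub_mem (const_mem_F0 _) (mul_mem (const_mem_F0 _)
          (const_mem_F0 _))) (pow_mem D.hLF 2)) D.ls.mem
      · exact const_mem_A two_pos (mul_mem (mul_mem (const_mem_F0 _) (const_mem_F0 _))
          (pow_mem D.hLF 6))
    exact he0 (he.eq_zero (by have := D.deg; omega) h4)

/-- the distinct root case -/
theorem caseI [FiniteDimensional (F0 x) K] (D : Ctx x R s0 l L s u w) (ρ₀ σ₀ a₀ b₀ c₀ : ℂ)
    (hρ : ρ₀ ≠ 0) (hρa : ρ₀ + a₀ ≠ 0)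
    (N1 : s ^ 2 = (algebraMap ℂ K ρ₀ * L ^ 4 + algebraMap ℂ K σ₀ * l * L ^ 3) ^ 2 + l ^ 2 * u)
    (N2 : l * w = (s + algebraMap ℂ K a₀ * L ^ 4) * u + algebraMap ℂ K b₀ * L ^ 6 * s +
      algebraMap ℂ K c₀ * L ^ 10) : False := by
  have S := D.S
  have hl0 := D.hl0
  have hs := D.hs
  have hu := D.hu
  have hw := D.hw
  have hl := D.hl
  have hL := D.hL
  have h2K : (2 : K) ≠ 0 := two_ne_zero_K
  obtain ⟨κ₀, hκ₀⟩ : ∃ κ₀ : ℂ, 2 * ρ₀ * (ρ₀ + a₀) * κ₀ + (b₀ * ρ₀ + c₀) = 0 := by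
    refine ⟨-(b₀ * ρ₀ + c₀) / (2 * ρ₀ * (ρ₀ + a₀)), ?_⟩
    field_simp
    ring
  have hρK : algebraMap ℂ K ρ₀ ≠ 0 := by
    rw [Ne, FaithfulSMul.algebraMap_eq_zero_iff]; exact hρ
  have hρaK : algebraMap ℂ K ρ₀ + algebraMap ℂ K a₀ ≠ 0 := by
    rw [← map_add, Ne, FaithfulSMul.algebraMap_eq_zero_iff]; exact hρa
  have hκK := congrArg (algebraMap ℂ K) hκ₀
  simp only [map_add, map_mul, map_ofNat, map_zero] at hκK
  have hρR : algebraMap ℂ K ρ₀ ∈ R 0 := S.const_mem _ 0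
  have hσR : algebraMap ℂ K σ₀ ∈ R 0 := S.const_mem _ 0
  have haR : algebraMap ℂ K a₀ ∈ R 0 := S.const_mem _ 0
  have hbR : algebraMap ℂ K b₀ ∈ R 0 := S.const_mem _ 0
  have hcR : algebraMap ℂ K c₀ ∈ R 0 := S.const_mem _ 0
  have hκR : algebraMap ℂ K κ₀ ∈ R 0 := S.const_mem _ 0
  have hinvR : (algebraMap ℂ K ρ₀ + algebraMap ℂ K a₀)⁻¹ ∈ R 0 := by
    rw [← map_add, ← map_inv₀]; exact S.const_mem _ 0
  have hinv2R : (2 * algebraMap ℂ K ρ₀)⁻¹ ∈ R 0 := by
    have : (2 * algebraMap ℂ K ρ₀)⁻¹ = algebraMap ℂ K ((2 * ρ₀)⁻¹) := by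
      rw [map_inv₀, map_mul, map_ofNat]
    rw [this]; exact S.const_mem _ 0
  have h2R : (2 : K) ∈ R 0 := by
    have : (2 : K) = algebraMap ℂ K 2 := by rw [map_ofNat]
    rw [this]; exact S.const_mem _ 0
  have hρF : algebraMap ℂ K ρ₀ ∈ F0 x := const_mem_F0 _
  have hσF : algebraMap ℂ K σ₀ ∈ F0 x := const_mem_F0 _
  have hκF : algebraMap ℂ K κ₀ ∈ F0 x := const_mem_F0 _
  set ρ := algebraMap ℂ K ρ₀
  set σ := algebraMap ℂ K σ₀
  set a := algebraMap ℂ K a₀
  set b := algebraMap ℂ K b₀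
  set c := algebraMap ℂ K c₀
  set κ := algebraMap ℂ K κ₀
  set d := ρ * L ^ 4 + σ * l * L ^ 3 with hd
  have hdR : d ∈ R 4 := by
    rw [hd]
    refine (R 4).add_mem (S.mul_mem' hρR (S.pow_mem1 hL 4) (by norm_num)) ?_
    exact S.mul_mem' (S.mul_mem hσR hl) (S.pow_mem1 hL 3) (by norm_num)
  have hdF : d ∈ F0 x := by
    rw [hd]
    exact add_mem (mul_mem hρF (pow_mem D.hLF 4))
      (mul_mem (mul_mem hσF D.hlF) (pow_mem D.hLF 3))
  set Q := s + d with hQ
  have hQR : Q ∈ R 4 := (R 4).add_mem hs hdR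
  set g := u - κ * L ^ 2 * Q with hg
  have hgR : g ∈ R 6 := by
    rw [hg]
    refine (R 6).sub_mem hu ?_
    exact S.mul_mem' (S.mul_mem hκR (S.pow_mem1 hL 2)) hQR (by norm_num)
  have hQQ : Q ^ 2 = 2 * d * Q + l ^ 2 * u := by
    rw [hQ]
    linear_combination N1
  -- the first division
  set G := g * Q / l with hG
  have hlG : l * G = g * Q := by rw [hG]; field_simp
  have hE : (ρ + a) * (L ^ 4 * G) = Q * w - Q * σ * (L ^ 3 * u + b * L ^ 9) -
      l * u * (u + b * L ^ 6) + (ρ + a) * L ^ 4 * (-(2 * κ * σ * L ^ 5 * Q) - κ * l * L ^ 2 * u) := by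
    apply mul_left_cancel₀ hl0
    have h0 : l * ((ρ + a) * (L ^ 4 * G)) = (ρ + a) * L ^ 4 * (l * G) := by ring
    rw [h0, hlG, hg]
    have hQs : Q * s = d * Q + l ^ 2 * u := by
      rw [hQ] at hQQ ⊢
      linear_combination hQQ
    linear_combination (-(ρ + a) * κ * L ^ 6) * hQQ - Q * N2 - (u + b * L ^ 6) * hQs -
      L ^ 10 * Q * hκK + (-2 * (ρ + a) * κ * L ^ 6 * Q - Q * (u + b * L ^ 6)) * hd
  have hE13 : Q * w - Q * σ * (L ^ 3 * u + b * L ^ 9) -
      l * u * (u + b * L ^ 6) + (ρ + a) * L ^ 4 * (-(2 * κ * σ * L ^ 5 * Q) - κ * l * L ^ 2 * u) ∈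
      R 13 := by
    refine (R 13).add_mem ((R 13).sub_mem ((R 13).sub_mem ?_ ?_) ?_) ?_
    · exact S.mul_mem' hQR hw (by norm_num)
    · refine S.mul_mem' (S.mul_mem hQR hσR) ((R 9).add_mem ?_ ?_) (by norm_num)
      · exact S.mul_mem' (S.pow_mem1 hL 3) hu (by norm_num)
      · exact S.mul_mem' hbR (S.pow_mem1 hL 9) (by norm_num)
    · refine S.mul_mem' (S.mul_mem hl hu) ((R 6).add_mem hu ?_) (by norm_num)
      exact S.mul_mem' hbR (S.pow_mem1 hL 6) (by norm_num)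
    · refine S.mul_mem' (S.mul_mem ((R 0).add_mem hρR haR) (S.pow_mem1 hL 4))
        ((R 9).sub_mem ((R 9).neg_mem ?_) ?_) (by norm_num)
      · exact S.mul_mem' (S.mul_mem (S.mul_mem (S.mul_mem h2R hκR) hσR) (S.pow_mem1 hL 5)) hQR
          (by norm_num)
      · exact S.mul_mem' (S.mul_mem (S.mul_mem hκR hl) (S.pow_mem1 hL 2)) hu (by norm_num)
  have hGR : G ∈ R 9 := by
    refine S.sat3 D.h1 D.hx hL 4 ?_ ?_
    · rw [hlG]
      exact S.mul_mem' hgR hQR (by norm_num)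
    · have : L ^ 4 * G = (ρ + a)⁻¹ * ((ρ + a) * (L ^ 4 * G)) := by
        field_simp
      rw [this, hE]
      exact S.mul_mem' hinvR hE13 (by norm_num)
  have hdg : 2 * d * (g * g * Q) = l ^ 2 * (G * G - g * g * u) := by
    linear_combination (-g ^ 2) * hQQ - (l * G + g * Q) * hlG
  have hgg : g * g ∈ R 12 := S.mul_mem' hgR hgR (by norm_num)
  have hggQ : g * g * Q ∈ R 16 := S.mul_mem' hgg hQR (by norm_num)
  have hGG : G * G - g * g * u ∈ R 18 :=
    (R 18).sub_mem (S.mul_mem' hGR hGR (by norm_num)) (S.mul_mem' hgg hu (by norm_num))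
  -- the second division
  set H' := g * g * Q / l with hH'
  have hlH' : l * H' = g * g * Q := by rw [hH']; field_simp
  have hH'R : H' ∈ R 15 := by
    refine S.sat3 D.h1 D.hx hL 4 ?_ ?_
    · rw [hlH']; exact hggQ
    · have : L ^ 4 * H' = (2 * ρ)⁻¹ * (l * (G * G - g * g * u) - 2 * σ * L ^ 3 * (g * g * Q)) := by
        have h0 : 2 * ρ * (L ^ 4 * H') =
            l * (G * G - g * g * u) - 2 * σ * L ^ 3 * (g * g * Q) := by
          apply mul_left_cancel₀ hl0
          linear_combination (2 * ρ * L ^ 4) * hlH' + hdg - 2 * (g * g * Q) * hd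
        rw [← h0]
        field_simp
      rw [this]
      refine S.mul_mem' hinv2R ((R 19).sub_mem (S.mul_mem' hl hGG (by norm_num)) ?_) (by norm_num)
      exact S.mul_mem' (S.mul_mem (S.mul_mem h2R hσR) (S.pow_mem1 hL 3)) hggQ (by norm_num)
  set H := H' / l with hH
  have hlH : l * H = H' := by rw [hH]; field_simp
  have hHR : H ∈ R 14 := by
    refine S.sat3 D.h1 D.hx hL 4 ?_ ?_
    · rw [hlH]; exact hH'R
    · have : L ^ 4 * H = (2 * ρ)⁻¹ * ((G * G - g * g * u) - 2 * σ * L ^ 3 * H') := by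
        have h0 : 2 * ρ * (L ^ 4 * H) = (G * G - g * g * u) - 2 * σ * L ^ 3 * H' := by
          apply mul_left_cancel₀ hl0
          apply mul_left_cancel₀ hl0
          linear_combination (2 * ρ * L ^ 4 * l) * hlH + (2 * ρ * L ^ 4 + 2 * σ * l * L ^ 3) * hlH'
            + hdg - 2 * (g * g * Q) * hd
        rw [← h0]
        field_simp
      rw [this]
      refine S.mul_mem' hinv2R ((R 18).sub_mem hGG ?_) (by norm_num)
      exact S.mul_mem' (S.mul_mem (S.mul_mem h2R hσR) (S.pow_mem1 hL 3)) hH'R (by norm_num)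
  -- the degree contradiction
  obtain ⟨e, he0, he⟩ := D.lu
  have hQl : Ld (F0 x) s0 1 1 Q := D.ls.add (const_mem_A one_pos hdF)
  have hgl : Ld (F0 x) s0 2 e g := by
    have : g = u + (-(κ * L ^ 2)) * Q := by rw [hg]; ring
    rw [this]
    exact he.add (cmul_mem_A (neg_mem (mul_mem hκF (pow_mem D.hLF 2))) hQl.mem)
  have hHl : Ld (F0 x) s0 5 ((l ^ 2)⁻¹ * (e * e * 1)) ((l ^ 2)⁻¹ * (g * g * Q)) :=
    ((hgl.mul hgl).mul hQl).cmul (inv_mem (pow_mem D.hlF 2))
  have hHeq : H = (l ^ 2)⁻¹ * (g * g * Q) := by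
    rw [hH, hH']
    field_simp
  rw [← hHeq] at hHl
  have := hHl.eq_zero D.deg (D.h14 _ hHR)
  exact (mul_ne_zero (inv_ne_zero (pow_ne_zero 2 hl0)) (by simpa using he0)) this

end Ctx

end Pool.Agent.H607R3.OO
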