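import Pool.Agent.H607R3.OO.Local

set_option autoImplicit false

open Polynomial

namespace Pool.Agent.H607R3.OO

variable {K : Type} [Field K] [Algebra ℂ K]

/-- Polynomials in `x` of degree at most `n`. -/
noncomputable def P (x : K) (n : ℕ) : Submodule ℂ K :=
  (degreeLT ℂ (n + 1)).map (aeval x : ℂ[X] →ₐ[ℂ] K).toLinearMap

variable {x : K} {R : ℕ → Submodule ℂ K} {s0 l L s u w : K}

theorem mem_P {n : ℕ} {f : K} : f ∈ P x n ↔ ∃ p : ℂ[X], p.natDegree ≤ n ∧ aeval x p = f := by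
  unfold P
  rw [Submodule.mem_map]
  simp only [mem_degreeLT, AlgHom.toLinearMap_apply]
  constructor
  · rintro ⟨p, hp, rfl⟩
    refine ⟨p, ?_, rfl⟩
    have : p.degree < ((n + 1 : ℕ) : WithBot ℕ) := hp
    by_cases h0 : p = 0
    · simp [h0]
    · have := (natDegree_lt_iff_degree_lt h0).2 this
      omega
  · rintro ⟨p, hp, rfl⟩
    refine ⟨p, ?_, rfl⟩
    refine lt_of_le_of_lt degree_le_natDegree ?_
    have : p.natDegree < n + 1 := by omega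
    exact_mod_cast this

theorem mem_P_of_degreeLT {n k : ℕ} {p : ℂ[X]} (hp : p ∈ degreeLT ℂ k) (h : k ≤ n + 1) :
    aeval x p ∈ P x n :=
  Submodule.mem_map.2 ⟨p, degreeLT_mono h hp, rfl⟩

theorem P_le_R (S : Sys x R) {n : ℕ} {f : K} (hf : f ∈ P x n) : f ∈ R n := by
  obtain ⟨p, hp, rfl⟩ := mem_P.1 hf
  exact S.aeval_mem hp

theorem P_F0 {n : ℕ} {f : K} (hf : f ∈ P x n) : f ∈ F0 x := by
  obtain ⟨p, _, rfl⟩ := mem_P.1 hf
  exact aeval_mem_F0 x p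

theorem P_mono {m n : ℕ} (h : m ≤ n) {f : K} (hf : f ∈ P x m) : f ∈ P x n := by
  obtain ⟨p, hp, rfl⟩ := mem_P.1 hf
  exact mem_P.2 ⟨p, hp.trans h, rfl⟩

theorem P_const (c : ℂ) (n : ℕ) : algebraMap ℂ K c ∈ P x n :=
  mem_P.2 ⟨C c, by simp, by simp⟩

theorem P_mul {m n k : ℕ} {f g : K} (hf : f ∈ P x m) (hg : g ∈ P x n) (h : m + n = k) :
    f * g ∈ P x k := by
  obtain ⟨p, hp, rfl⟩ := mem_P.1 hf
  obtain ⟨q, hq, rfl⟩ := mem_P.1 hg
  exact mem_P.2 ⟨p * q, (natDegree_mul_le).trans (by omega), map_mul _ _ _⟩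

theorem P_pow {f : K} (hf : f ∈ P x 1) (n : ℕ) : f ^ n ∈ P x n := by
  induction n with
  | zero => simpa using P_const (x := x) 1 0
  | succ n ih => rw [pow_succ]; exact P_mul ih hf rfl

theorem P_succ {n : ℕ} {f : K} (hf : f ∈ P x (n + 1)) :
    ∃ g ∈ P x n, ∃ h ∈ P x n, f = g + x * h := by
  obtain ⟨p, hp, rfl⟩ := mem_P.1 hf
  refine ⟨algebraMap ℂ K (p.coeff 0), P_const _ _, aeval x p.divX, mem_P.2 ⟨_, ?_, rfl⟩, ?_⟩
  · rw [natDegree_divX_eq_natDegree_tsub_one]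
    omega
  · conv_lhs => rw [← divX_mul_X_add p]
    simp only [map_add, map_mul, aeval_X, aeval_C]
    ring

/-- Splitting off the value at the zero of `l`. -/
theorem dec_aux (h1 : (1 : K) ∈ Submodule.span ℂ ({l, L} : Set K))
    (hx : x ∈ Submodule.span ℂ ({l, L} : Set K)) (hL : L ∈ P x 1) (n : ℕ) :
    (∀ f ∈ P x n, ∃ c : ℂ, ∃ f' : K, L * f' ∈ P x n ∧ f = algebraMap ℂ K c * L ^ n + l * f') ∧
    (∀ f ∈ P x (n + 1), ∃ c : ℂ, ∃ f' ∈ P x n, f = algebraMap ℂ K c * L ^ (n + 1) + l * f') := by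
  obtain ⟨a1, b1, hab1⟩ := Submodule.mem_span_pair.1 h1
  obtain ⟨a2, b2, hab2⟩ := Submodule.mem_span_pair.1 hx
  rw [Algebra.smul_def, Algebra.smul_def] at hab1 hab2
  have stepG : ∀ m : ℕ, (∀ f ∈ P x m, ∃ c : ℂ, ∃ f' : K, L * f' ∈ P x m ∧
      f = algebraMap ℂ K c * L ^ m + l * f') →
      (∀ f ∈ P x (m + 1), ∃ c : ℂ, ∃ f' ∈ P x m, f = algebraMap ℂ K c * L ^ (m + 1) + l * f') := by
    intro m ih f hf
    obtain ⟨g, hg, h, hh, rfl⟩ := P_succ hf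
    obtain ⟨cg, g', hg', hg2⟩ := ih g hg
    obtain ⟨ch, h', hh', hh2⟩ := ih h hh
    refine ⟨b1 * cg + b2 * ch, (algebraMap ℂ K a1 * g + algebraMap ℂ K a2 * h) +
      (algebraMap ℂ K b1 * (L * g') + algebraMap ℂ K b2 * (L * h')), ?_, ?_⟩
    · refine (P x m).add_mem ((P x m).add_mem ?_ ?_) ((P x m).add_mem ?_ ?_)
      · exact P_mul (P_const a1 0) hg (zero_add _)
      · exact P_mul (P_const a2 0) hh (zero_add _)
      · exact P_mul (P_const b1 0) hg' (zero_add _)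
      · exact P_mul (P_const b2 0) hh' (zero_add _)
    · simp only [map_add, map_mul]
      linear_combination (-(g * hab1)) - h * hab2 + algebraMap ℂ K b1 * L * hg2 +
        algebraMap ℂ K b2 * L * hh2
  have key : ∀ m : ℕ, (∀ f ∈ P x m, ∃ c : ℂ, ∃ f' : K, L * f' ∈ P x m ∧
      f = algebraMap ℂ K c * L ^ m + l * f') := by
    intro m
    induction m with
    | zero => 
      intro f hf
      obtain ⟨p, hp, rfl⟩ := mem_P.1 hf
      refine ⟨p.coeff 0, 0, by simp, ?_⟩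
      rw [eq_C_of_natDegree_le_zero hp]
      simp
    | succ m ih =>
      intro f hf
      obtain ⟨c, f', hf', h⟩ := stepG m ih f hf
      exact ⟨c, f', P_mul hL hf' (by omega), h⟩
  exact ⟨key n, stepG n (key n)⟩

theorem dec (h1 : (1 : K) ∈ Submodule.span ℂ ({l, L} : Set K))
    (hx : x ∈ Submodule.span ℂ ({l, L} : Set K)) (hL : L ∈ P x 1) (n : ℕ) {f : K}
    (hf : f ∈ P x (n + 1)) :
    ∃ c : ℂ, ∃ f' ∈ P x n, f = algebraMap ℂ K c * L ^ (n + 1) + l * f' :=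
  (dec_aux h1 hx hL n).2 f hf

theorem Ctx.shift (D : Ctx x R s0 l L s u w) (hLP : L ∈ P x 1) {a b c e : K}
    (ha : a ∈ P x 4) (hb : b ∈ P x 6) (hc : c ∈ P x 10) (he : e ∈ P x 6)
    (N2 : l * w = (s + a) * u + b * s + c) :
    ∃ a₀ b₀ c₀ : ℂ, ∃ w' : K, Ctx x R s0 l L s (u + e) w' ∧
      l * w' = (s + algebraMap ℂ K a₀ * L ^ 4) * (u + e) + algebraMap ℂ K b₀ * L ^ 6 * s +
        algebraMap ℂ K c₀ * L ^ 10 := by
  have S := D.S
  obtain ⟨a₀, a', ha', haeq⟩ := dec D.h1 D.hx hLP 3 ha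
  obtain ⟨b₀, b', hb', hbeq⟩ := dec D.h1 D.hx hLP 5 ((P x 6).sub_mem hb he)
  obtain ⟨c₀, c', hc', hceq⟩ := dec D.h1 D.hx hLP 9 ((P x 10).sub_mem hc (P_mul ha he rfl))
  have hu' : u + e ∈ R 6 := (R 6).add_mem D.hu (P_le_R S he)
  refine ⟨a₀, b₀, c₀, w - a' * (u + e) - b' * s - c', ?_, ?_⟩
  · refine { D with hu := hu', hw := ?_, lu := ?_ }
    · refine (R 9).sub_mem ((R 9).sub_mem ((R 9).sub_mem D.hw ?_) ?_) (P_le_R S hc')
      · exact S.mul_mem' (P_le_R S ha') hu' (by norm_num)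
      · exact S.mul_mem' (P_le_R S hb') D.hs (by norm_num)
    · obtain ⟨k, hk0, hk⟩ := D.lu
      exact ⟨k, hk0, hk.add (const_mem_A two_pos (P_F0 he))⟩
  · linear_combination N2 + (u + e) * haeq + s * hbeq + hceq

theorem Ctx.false [FiniteDimensional (F0 x) K] (D : Ctx x R s0 l L s u w) (hLP : L ∈ P x 1)
    {p a b c : K} (hp : p ∈ P x 8)
    (ha : a ∈ P x 4) (hb : b ∈ P x 6) (hc : c ∈ P x 10)
    (N1 : s ^ 2 = p + l ^ 2 * u)
    (N2 : l * w = (s + a) * u + b * s + c) : False := by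
  obtain ⟨α, p7, hp7, hpeq⟩ := dec D.h1 D.hx hLP 7 hp
  obtain ⟨β, p6, hp6, hp7eq⟩ := dec D.h1 D.hx hLP 6 hp7
  by_cases hα : α = 0
  · subst hα
    obtain ⟨a₀, b₀, c₀, w', D', N2'⟩ := D.shift hLP ha hb hc hp6 N2
    refine D'.caseII β a₀ b₀ c₀ ?_ N2'
    rw [map_zero] at hpeq
    linear_combination N1 + hpeq + l * hp7eq
  · obtain ⟨ρ, hρ⟩ := IsAlgClosed.exists_eq_mul_self α
    have hρ0 : ρ ≠ 0 := by
      rintro rfl
      exact hα (by simpa using hρ)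
    obtain ⟨σ, hσ⟩ : ∃ σ : ℂ, 2 * ρ * σ = β := ⟨β / (2 * ρ), by field_simp⟩
    have hρK := congrArg (algebraMap ℂ K) hρ
    have hσK := congrArg (algebraMap ℂ K) hσ
    simp only [map_mul, map_ofNat] at hρK hσK
    have he : p6 - algebraMap ℂ K (σ ^ 2) * L ^ 6 ∈ P x 6 :=
      (P x 6).sub_mem hp6 (P_mul (P_const _ 0) (P_pow hLP 6) (zero_add _))
    obtain ⟨a₀, b₀, c₀, w', D', N2'⟩ := D.shift hLP ha hb hc he N2
    have N1' : s ^ 2 = (algebraMap ℂ K ρ * L ^ 4 + algebraMap ℂ K σ * l * L ^ 3) ^ 2 +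
        l ^ 2 * (u + (p6 - algebraMap ℂ K (σ ^ 2) * L ^ 6)) := by
      rw [map_pow]
      linear_combination N1 + hpeq + l * hp7eq + L ^ 8 * hρK - l * L ^ 7 * hσK
    by_cases hra : ρ + a₀ = 0
    · refine D'.caseI (-ρ) (-σ) a₀ b₀ c₀ (neg_ne_zero.2 hρ0) ?_ ?_ N2'
      · intro h
        apply hρ0
        have : 2 * ρ = 0 := by linear_combination hra - h
        simpa using this
      · rw [N1', map_neg, map_neg]
        ring
    · exact D'.caseI ρ σ a₀ b₀ c₀ hρ0 hra N1' N2'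

end Pool.Agent.H607R3.OO
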