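import Pool.Agent.H607R3.OO.Struct

set_option autoImplicit false

open Polynomial

namespace Pool.Agent.H607R3.OO

variable {K : Type} [Field K] [Algebra ℂ K]

theorem isIntegral_const (y : K) (c : ℂ) :
    IsIntegral (Algebra.adjoin ℂ ({y} : Set K)) (algebraMap ℂ K c) := by
  rw [IsScalarTower.algebraMap_apply ℂ (Algebra.adjoin ℂ ({y} : Set K)) K]
  exact isIntegral_algebraMap

theorem isIntegral_self (y : K) : IsIntegral (Algebra.adjoin ℂ ({y} : Set K)) y :=
  isIntegral_algebraMap (R := Algebra.adjoin ℂ ({y} : Set K)) (A := K)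
    (x := ⟨y, Algebra.self_mem_adjoin_singleton ℂ y⟩)

/-- The space of sections of the twist of the structure sheaf. -/
def Sec (x : K) (m : ℕ) : Submodule ℂ K where
  carrier := {f : K | IsIntegral (Algebra.adjoin ℂ ({x} : Set K)) f ∧
    IsIntegral (Algebra.adjoin ℂ ({x⁻¹} : Set K)) (f * x⁻¹ ^ m)}
  add_mem' := by
    rintro f g ⟨h1, h2⟩ ⟨h3, h4⟩
    exact ⟨h1.add h3, by rw [add_mul]; exact h2.add h4⟩
  zero_mem' := ⟨isIntegral_zero, by rw [zero_mul]; exact isIntegral_zero⟩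
  smul_mem' := by
    rintro c f ⟨h1, h2⟩
    refine ⟨?_, ?_⟩
    · rw [Algebra.smul_def]
      exact (isIntegral_const x c).mul h1
    · rw [Algebra.smul_def, mul_assoc]
      exact (isIntegral_const x⁻¹ c).mul h2

theorem mem_Sec {x : K} {m : ℕ} {f : K} : f ∈ Sec x m ↔
    IsIntegral (Algebra.adjoin ℂ ({x} : Set K)) f ∧
    IsIntegral (Algebra.adjoin ℂ ({x⁻¹} : Set K)) (f * x⁻¹ ^ m) := Iff.rfl

theorem sys_Sec {x : K} (hx : x ≠ 0) : Sys x (Sec x) where
  one_mem := by
    rw [mem_Sec]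
    exact ⟨isIntegral_one, by simpa using isIntegral_one⟩
  one_mem1 := by
    rw [mem_Sec]
    exact ⟨isIntegral_one, by simpa using isIntegral_self x⁻¹⟩
  x_mem := by
    rw [mem_Sec]
    refine ⟨isIntegral_self x, ?_⟩
    rw [pow_one, mul_inv_cancel₀ hx]
    exact isIntegral_one
  mul_mem := by
    intro m n f g hf hg
    rw [mem_Sec] at hf hg ⊢
    refine ⟨hf.1.mul hg.1, ?_⟩
    have : f * g * x⁻¹ ^ (m + n) = (f * x⁻¹ ^ m) * (g * x⁻¹ ^ n) := by ring
    rw [this]
    exact hf.2.mul hg.2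
  sat := by
    intro m f hf hxf
    rw [mem_Sec] at hf hxf ⊢
    refine ⟨hf.1, ?_⟩
    have : f * x⁻¹ ^ m = x * f * x⁻¹ ^ (m + 1) := by
      rw [pow_succ]
      field_simp
    rw [this]
    exact hxf.2
  sq := by
    intro m f hf
    rw [mem_Sec] at hf ⊢
    refine ⟨IsIntegral.of_pow two_pos (by rw [pow_two]; exact hf.1),
      IsIntegral.of_pow two_pos ?_⟩
    have : (f * x⁻¹ ^ m) ^ 2 = f * f * x⁻¹ ^ (2 * m) := by ring
    rw [this]
    exact hf.2

theorem Sec_dim {x : K} {m n : ℕ} (h : ∃ b : Fin n → K, LinearIndependent ℂ b ∧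
    ((Submodule.span ℂ (Set.range b) : Submodule ℂ K) : Set K) =
      {f : K | IsIntegral (Algebra.adjoin ℂ ({x} : Set K)) f ∧
        IsIntegral (Algebra.adjoin ℂ ({x⁻¹} : Set K)) (f * x⁻¹ ^ m)}) :
    FiniteDimensional ℂ (Sec x m) ∧ Module.finrank ℂ (Sec x m) = n := by
  obtain ⟨b, hb, hs⟩ := h
  have h1 : Sec x m = Submodule.span ℂ (Set.range b) := by
    apply SetLike.coe_injective
    rw [hs]
    rfl
  rw [h1]
  refine ⟨FiniteDimensional.span_of_finite ℂ (Set.finite_range b), ?_⟩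
  rw [finrank_span_eq_card hb, Fintype.card_fin]

/-- The splitting type used for the counterexample. -/
def spl (i : ℕ) : ℕ := if i = 1 then 4 else 3 * i

theorem spl_sum (m : ℕ) :
    (m + 1) + ∑ i ∈ Finset.Icc 1 (7 - 1), (m + 1 - spl i) = Dm m := by
  have h : Finset.Icc 1 (7 - 1) = {1, 2, 3, 4, 5, 6} := by decide
  rw [h]
  simp [spl, Dm]
  ring

/-- There is no primitive cover of degree seven with splitting type `(4,6,9,12,15,18)`. -/
theorem no_cover :
    ¬ (∃ (F : Type) (_ : Field F) (_ : Algebra ℂ F) (x : F),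
          Transcendental ℂ x ∧
          FiniteDimensional (IntermediateField.adjoin ℂ ({x} : Set F)) F ∧
          Module.finrank (IntermediateField.adjoin ℂ ({x} : Set F)) F = 7 ∧
          (∀ E : IntermediateField ℂ F, IntermediateField.adjoin ℂ ({x} : Set F) ≤ E →
              E = IntermediateField.adjoin ℂ ({x} : Set F) ∨ E = ⊤) ∧
          (∀ m : ℕ, ∃ b : Fin ((m + 1) + ∑ i ∈ Finset.Icc 1 (7 - 1), (m + 1 - spl i)) → F,
              LinearIndependent ℂ b ∧
              ((Submodule.span ℂ (Set.range b) : Submodule ℂ F) : Set F) =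
                {f : F | IsIntegral (Algebra.adjoin ℂ ({x} : Set F)) f ∧
                  IsIntegral (Algebra.adjoin ℂ ({x⁻¹} : Set F)) (f * x⁻¹ ^ m)})) := by
  rintro ⟨F, _, _, x, hx, hfd, hk, hprim, hdim⟩
  have hx0 : x ≠ 0 := by
    rintro rfl
    exact hx (isAlgebraic_zero)
  refine main_false (sys_Sec hx0) hx hk hprim (fun m => (Sec_dim (hdim m)).1) (fun m => ?_)
  rw [(Sec_dim (hdim m)).2, spl_sum]

end Pool.Agent.H607R3.OO
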