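import Pool.Agent.H607R3.OO.Norm

set_option autoImplicit false

open Polynomial

namespace Pool.Agent.H607R3.OO

variable {K : Type} [Field K] [Algebra ℂ K]

theorem ind_cons {F : IntermediateField ℂ K} {n : ℕ} {v : Fin n → K} {y : K}
    (hv : LinearIndependent F v) (hy : y ∉ Submodule.span F (Set.range v)) :
    LinearIndependent F (Matrix.vecCons y v : Fin (n + 1) → K) :=
  linearIndependent_finCons.2 ⟨hv, hy⟩

theorem ind_one (F : IntermediateField ℂ K) : LinearIndependent F (![(1 : K)] : Fin 1 → K) := by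
  refine ind_cons (linearIndependent_empty_type) ?_
  simp

theorem B_sub_A {x s : K} {ι : Type} [Fintype ι] {e : ι → K} {d : ι → ℕ} {m n : ℕ}
    (h : ∀ i, e i ∈ A (F0 x) s n) {f : K} (hf : f ∈ B x e d m) : f ∈ A (F0 x) s n := by
  obtain ⟨p, _, rfl⟩ := mem_B.1 hf
  exact Submodule.sum_mem _ fun i _ => cmul_mem_A (aeval_mem_F0 x _) (h i)

theorem Ld.mul' {F : IntermediateField ℂ K} {s : K} {m n k : ℕ} {c c' f g : K}
    (hf : Ld F s m c f) (hg : Ld F s n c' g) (h : m + n = k) : Ld F s k (c * c') (f * g) := by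
  subst h
  exact hf.mul hg

theorem Ld.add' {F : IntermediateField ℂ K} {s : K} {n : ℕ} {c c' f g : K}
    (hf : Ld F s n c f) (hg : Ld F s n c' g) : Ld F s n (c + c') (f + g) := by
  refine ⟨add_mem hf.1 hg.1, ?_⟩
  have : f + g - (c + c') * s ^ n = (f - c * s ^ n) + (g - c' * s ^ n) := by ring
  rw [this]
  exact Submodule.add_mem _ hf.2 hg.2

theorem new_gen {x : K} {R : ℕ → Submodule ℂ K} (S : Sys x R) (hx : Transcendental ℂ x)
    {ι : Type} [Fintype ι] {e : ι → K} {d : ι → ℕ} (he : ∀ i, e i ∈ R (d i))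
    (hi : LinearIndependent (F0 x) e) {m : ℕ} (hd : ∀ i, d i ≤ m + 1)
    [FiniteDimensional ℂ (R m)] 
    (hf : Module.finrank ℂ (R m) = ∑ i, (m + 1 - d i))
    (hf2 : ∑ i, (m + 1 + 1 - d i) < Module.finrank ℂ (R (m + 1))) :
    ∃ f ∈ R (m + 1), f ∉ Submodule.span (F0 x) (Set.range e) := by
  have hle := B_le S he (m + 1)
  have hlt : B x e d (m + 1) < R (m + 1) := by
    refine lt_of_le_of_ne hle ?_
    intro h
    rw [← h, finrank_B hx hi] at hf2
    exact lt_irrefl _ hf2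
  obtain ⟨f, hfR, hfB⟩ := SetLike.exists_of_lt hlt
  exact ⟨f, hfR, fun h => hfB (step S hx he hd (B_eq S hx he hi m hf) hfR h)⟩

theorem minpoly_deg {x : K} [FiniteDimensional (F0 x) K]
    (hprim : ∀ E : IntermediateField ℂ K, F0 x ≤ E → E = F0 x ∨ E = ⊤) {s : K}
    (hs : s ∉ F0 x) : (minpoly (F0 x) s).natDegree = Module.finrank (F0 x) K := by
  have h1 : (IntermediateField.adjoin (F0 x) ({s} : Set K)).restrictScalars ℂ = ⊤ := by
    rcases hprim ((IntermediateField.adjoin (F0 x) ({s} : Set K)).restrictScalars ℂ) (by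
      intro y hy
      rw [IntermediateField.mem_restrictScalars]
      exact (IntermediateField.adjoin (F0 x) ({s} : Set K)).algebraMap_mem ⟨y, hy⟩) with h | h
    · exfalso
      apply hs
      rw [← h, IntermediateField.mem_restrictScalars]
      exact IntermediateField.mem_adjoin_simple_self _ s
    · exact h
  have h2 : IntermediateField.adjoin (F0 x) ({s} : Set K) = ⊤ := by
    rw [eq_top_iff]
    intro y _
    have : y ∈ (IntermediateField.adjoin (F0 x) ({s} : Set K)).restrictScalars ℂ := by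
      rw [h1]; trivial
    rwa [IntermediateField.mem_restrictScalars] at this
  rw [← IntermediateField.adjoin.finrank (Algebra.IsIntegral.isIntegral s), h2,
    IntermediateField.finrank_top']

/-- The dimension of the space of sections for the splitting type `(4,6,9,12,15,18)`. -/
def Dm (m : ℕ) : ℕ :=
  (m + 1) + ((m + 1 - 4) + (m + 1 - 6) + (m + 1 - 9) + (m + 1 - 12) + (m + 1 - 15) + (m + 1 - 18))

/-- A linear form and a complement. -/
theorem exists_complement {x l : K} (hl : l ∈ P x 1) (hl0 : l ≠ 0) :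
    ∃ L ∈ P x 1, (1 : K) ∈ Submodule.span ℂ ({l, L} : Set K) ∧
      x ∈ Submodule.span ℂ ({l, L} : Set K) := by
  obtain ⟨p, hp, rfl⟩ := mem_P.1 hl
  have hp2 : p = C (p.coeff 1) * X + C (p.coeff 0) := eq_X_add_C_of_natDegree_le_one hp
  have hp3 : aeval x p = p.coeff 1 • x + p.coeff 0 • (1 : K) := by
    conv_lhs => rw [hp2]
    simp [Algebra.smul_def]
  by_cases h1 : p.coeff 1 = 0
  · refine ⟨x, mem_P.2 ⟨X, by simp, by simp⟩, ?_, Submodule.subset_span (by simp)⟩
    have h0 : p.coeff 0 ≠ 0 := by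
      intro h0
      apply hl0
      rw [hp3, h1, h0]; simp
    refine Submodule.mem_span_pair.2 ⟨(p.coeff 0)⁻¹, 0, ?_⟩
    rw [hp3, h1]
    simp only [zero_smul, zero_add, add_zero]
    rw [smul_smul, inv_mul_cancel₀ h0, one_smul]
  · refine ⟨1, mem_P.2 ⟨1, by simp, by simp⟩, Submodule.subset_span (by simp), ?_⟩
    refine Submodule.mem_span_pair.2 ⟨(p.coeff 1)⁻¹, -(p.coeff 1)⁻¹ * p.coeff 0, ?_⟩
    rw [hp3, smul_add, smul_smul, smul_smul, inv_mul_cancel₀ h1, one_smul]
    module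

theorem main_false {x : K} {R : ℕ → Submodule ℂ K} (S : Sys x R) (hx : Transcendental ℂ x)
    [FiniteDimensional (F0 x) K] (hk : Module.finrank (F0 x) K = 7)
    (hprim : ∀ E : IntermediateField ℂ K, F0 x ≤ E → E = F0 x ∨ E = ⊤)
    (hfin : ∀ m, FiniteDimensional ℂ (R m))
    (hD : ∀ m, Module.finrank ℂ (R m) = Dm m) : False := by
  -- first generator
  have hi1 := ind_one (F0 x)
  have he1 : ∀ i, (![(1 : K)] : Fin 1 → K) i ∈ R ((![0] : Fin 1 → ℕ) i) := by
    intro i
    fin_cases i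
    exact S.one_mem
  obtain ⟨s, hs, hs1⟩ := new_gen S hx he1 hi1 (m := 3) (by intro i; fin_cases i; simp)
    (by rw [hD]; rfl) (by rw [hD]; decide)
  have hsF : s ∉ F0 x := by
    intro h
    apply hs1
    have : s = (⟨s, h⟩ : F0 x) • (1 : K) := by
      rw [Algebra.smul_def, mul_one]; rfl
    rw [this]
    exact Submodule.smul_mem _ _ (Submodule.subset_span ⟨0, rfl⟩)
  have hmp : (minpoly (F0 x) s).natDegree = 7 := by rw [minpoly_deg hprim hsF, hk]
  -- second generator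
  have hi2 := ind_cons hi1 hs1
  have he2 : ∀ i, (![s, 1] : Fin 2 → K) i ∈ R ((![4, 0] : Fin 2 → ℕ) i) := by
    intro i
    fin_cases i
    · exact hs
    · exact S.one_mem
  obtain ⟨u, hu, hu1⟩ := new_gen S hx he2 hi2 (m := 5) (by intro i; fin_cases i <;> simp)
    (by rw [hD]; rfl) (by rw [hD]; decide)
  have hone : ∀ n, (1 : K) ∈ A (F0 x) s (n + 1) := fun n => const_mem_A (Nat.succ_pos n) (one_mem _)
  have hsA : ∀ n, s ∈ A (F0 x) s (n + 2) := fun n => by
    have := pow_mem_A (F := F0 x) (s := s) (i := 1) (n := n + 2) (by omega)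
    rwa [pow_one] at this
  -- third generator
  have hi3 := ind_cons hi2 hu1
  have he3 : ∀ i, (![u, s, 1] : Fin 3 → K) i ∈ R ((![6, 4, 0] : Fin 3 → ℕ) i) := by
    intro i
    fin_cases i
    · exact hu
    · exact hs
    · exact S.one_mem
  obtain ⟨p2, hp2, p4, hp4, p8, hp8, hpeq⟩ : ∃ p2 ∈ P x 2, ∃ p4 ∈ P x 4, ∃ p8 ∈ P x 8,
      s * s = p2 * u + p4 * s + p8 := by
    have h8 : s * s ∈ B x ![u, s, 1] ![6, 4, 0] 8 := by
      rw [← B_eq S hx he3 hi3 8 (by rw [hD]; rfl)]
      exact S.mul_mem' hs hs (by norm_num)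
    obtain ⟨p, hp, hpeq⟩ := mem_B.1 h8
    simp only [Fin.sum_univ_three, Matrix.cons_val_zero, Matrix.cons_val_one, Matrix.cons_val_two,
      Matrix.head_cons, Matrix.tail_cons, mul_one] at hpeq
    exact ⟨_, mem_P_of_degreeLT (hp 0) (by simp), _, mem_P_of_degreeLT (hp 1) (by simp), _,
      mem_P_of_degreeLT (hp 2) (by simp), hpeq⟩
  have hss : Ld (F0 x) s 2 (1 * 1) (s * s) :=
    Ld.mul' (m := 1) (n := 1) Ld.s_one Ld.s_one (by norm_num)
  have hp20 : p2 ≠ 0 := by
    rintro rfl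
    have : s * s ∈ A (F0 x) s 2 := by
      rw [hpeq, zero_mul, zero_add]
      exact Submodule.add_mem _ (cmul_mem_A (P_F0 hp4) (hsA 0)) (const_mem_A two_pos (P_F0 hp8))
    have h0 := hss.eq_zero (by rw [hmp]; norm_num) this
    simp at h0
  have hLu : Ld (F0 x) s 2 (p2⁻¹ * (1 * 1)) u := by
    apply Ld.of_cmul (P_F0 hp2) hp20
    have : p2 * u = s * s + -(p4 * s + p8) := by rw [hpeq]; ring
    rw [this]
    exact hss.add (Submodule.neg_mem _ (Submodule.add_mem _ (cmul_mem_A (P_F0 hp4) (hsA 0))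
      (const_mem_A two_pos (P_F0 hp8))))
  rw [mul_one, mul_one] at hLu
  -- fourth generator
  obtain ⟨w, hw, hw1⟩ := new_gen S hx he3 hi3 (m := 8) (by intro i; fin_cases i <;> simp)
    (by rw [hD]; rfl) (by rw [hD]; decide)
  have hi4 := ind_cons hi3 hw1
  have he4 : ∀ i, (![w, u, s, 1] : Fin 4 → K) i ∈ R ((![9, 6, 4, 0] : Fin 4 → ℕ) i) := by
    intro i
    fin_cases i
    · exact hw
    · exact hu
    · exact hs
    · exact S.one_mem
  obtain ⟨q1, hq1, q4, hq4, q6, hq6, q10, hq10, hqeq⟩ : ∃ q1 ∈ P x 1, ∃ q4 ∈ P x 4,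
      ∃ q6 ∈ P x 6, ∃ q10 ∈ P x 10, s * u = q1 * w + q4 * u + q6 * s + q10 := by
    have h8 : s * u ∈ B x ![w, u, s, 1] ![9, 6, 4, 0] 10 := by
      rw [← B_eq S hx he4 hi4 10 (by rw [hD]; rfl)]
      exact S.mul_mem' hs hu (by norm_num)
    obtain ⟨p, hp, hpeq⟩ := mem_B.1 h8
    rw [Fin.sum_univ_four] at hpeq
    simp only [Matrix.cons_val_zero, Matrix.cons_val_one, Matrix.cons_val_two,
      Matrix.cons_val_three, Matrix.head_cons, Matrix.tail_cons, mul_one] at hpeq
    exact ⟨_, mem_P_of_degreeLT (hp 0) (by simp), _, mem_P_of_degreeLT (hp 1) (by simp), _,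
      mem_P_of_degreeLT (hp 2) (by simp), _, mem_P_of_degreeLT (hp 3) (by simp), hpeq⟩
  have hsu : Ld (F0 x) s 3 (1 * p2⁻¹) (s * u) :=
    Ld.mul' Ld.s_one hLu (by norm_num)
  have hlow : q4 * u + q6 * s + q10 ∈ A (F0 x) s 3 :=
    Submodule.add_mem _ (Submodule.add_mem _ (cmul_mem_A (P_F0 hq4) hLu.mem)
      (cmul_mem_A (P_F0 hq6) (hsA 1))) (const_mem_A (by norm_num) (P_F0 hq10))
  have hq10' : q1 ≠ 0 := by
    rintro rfl
    have : s * u ∈ A (F0 x) s 3 := by
      rw [hqeq, zero_mul, zero_add]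
      exact hlow
    have h0 := hsu.eq_zero (by rw [hmp]; norm_num) this
    simp [hp20] at h0
  have hLw : Ld (F0 x) s 3 (q1⁻¹ * (1 * p2⁻¹)) w := by
    apply Ld.of_cmul (P_F0 hq1) hq10'
    have : q1 * w = s * u + -(q4 * u + q6 * s + q10) := by rw [hqeq]; ring
    rw [this]
    exact hsu.add (Submodule.neg_mem _ hlow)
  rw [one_mul] at hLw
  have hp2i : p2⁻¹ ≠ 0 := inv_ne_zero hp20
  have hq1i : q1⁻¹ ≠ 0 := inv_ne_zero hq10'
  -- fifth generator
  have huu : Ld (F0 x) s 4 (p2⁻¹ * p2⁻¹) (u * u) := Ld.mul' hLu hLu (by norm_num)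
  have h4A : ∀ i, (![w, u, s, 1] : Fin 4 → K) i ∈ A (F0 x) s 4 := by
    intro i
    fin_cases i
    · exact hLw.mem
    · exact A_mono (by norm_num) hLu.mem
    · exact hsA 2
    · exact hone 3
  have hi5 := ind_cons hi4 (y := u * u) (fun h => by
    have := huu.eq_zero (by rw [hmp]; norm_num) (span_le_A h4A h)
    exact (mul_ne_zero hp2i hp2i) this)
  have he5 : ∀ i, (![u * u, w, u, s, 1] : Fin 5 → K) i ∈
      R ((![12, 9, 6, 4, 0] : Fin 5 → ℕ) i) := by
    intro i
    fin_cases i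
    · exact S.mul_mem' hu hu (by norm_num)
    · exact hw
    · exact hu
    · exact hs
    · exact S.one_mem
  have h5A : ∀ i, (![u * u, w, u, s, 1] : Fin 5 → K) i ∈ A (F0 x) s 5 := by
    intro i
    fin_cases i
    · exact huu.mem
    · exact A_mono (by norm_num) hLw.mem
    · exact A_mono (by norm_num) hLu.mem
    · exact hsA 3
    · exact hone 4
  -- sixth generator
  have huw : Ld (F0 x) s 5 (p2⁻¹ * (q1⁻¹ * p2⁻¹)) (u * w) := Ld.mul' hLu hLw (by norm_num)
  have hi6 := ind_cons hi5 (y := u * w) (fun h => by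
    have := huw.eq_zero (by rw [hmp]; norm_num) (span_le_A h5A h)
    exact (mul_ne_zero hp2i (mul_ne_zero hq1i hp2i)) this)
  have he6 : ∀ i, (![u * w, u * u, w, u, s, 1] : Fin 6 → K) i ∈
      R ((![15, 12, 9, 6, 4, 0] : Fin 6 → ℕ) i) := by
    intro i
    fin_cases i
    · exact S.mul_mem' hu hw (by norm_num)
    · exact S.mul_mem' hu hu (by norm_num)
    · exact hw
    · exact hu
    · exact hs
    · exact S.one_mem
  have h6A : ∀ i, (![u * w, u * u, w, u, s, 1] : Fin 6 → K) i ∈ A (F0 x) s 6 := by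
    intro i
    fin_cases i
    · exact huw.mem
    · exact A_mono (by norm_num) huu.mem
    · exact A_mono (by norm_num) hLw.mem
    · exact A_mono (by norm_num) hLu.mem
    · exact hsA 4
    · exact hone 5
  -- the relation in degree 18
  have huuu : Ld (F0 x) s 6 (p2⁻¹ * p2⁻¹ * p2⁻¹) (u * u * u) := Ld.mul' huu hLu (by norm_num)
  have hww : Ld (F0 x) s 6 (q1⁻¹ * p2⁻¹ * (q1⁻¹ * p2⁻¹)) (w * w) := Ld.mul' hLw hLw (by norm_num)
  obtain ⟨μ, hμ⟩ : ∃ μ : ℂ, w * w + -(algebraMap ℂ K μ) * (u * u * u) ∈ A (F0 x) s 6 := by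
    set V := B x ![u * w, u * u, w, u, s, 1] ![15, 12, 9, 6, 4, 0] 18 with hV
    have hVle : V ≤ R 18 := B_le S he6 18
    have hu3 : u * u * u ∈ R 18 := S.mul_mem' (S.mul_mem hu hu) hu (by norm_num)
    have hw2 : w * w ∈ R 18 := S.mul_mem' hw hw (by norm_num)
    have hu3V : u * u * u ∉ V := by
      intro h
      have := huuu.eq_zero (by rw [hmp]; norm_num) (B_sub_A h6A h)
      exact (mul_ne_zero (mul_ne_zero hp2i hp2i) hp2i) this
    have hfV : Module.finrank ℂ V = 68 := by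
      rw [hV, finrank_B hx hi6]
      rfl
    have hfR : Module.finrank ℂ (R 18) = 69 := by rw [hD]; rfl
    have hWle : Submodule.span ℂ {u * u * u} ⊔ V ≤ R 18 :=
      sup_le (by rw [Submodule.span_le]; simpa using hu3) hVle
    have : FiniteDimensional ℂ ↥(Submodule.span ℂ {u * u * u} ⊔ V) :=
      Submodule.finiteDimensional_of_le hWle
    have hVlt : V < Submodule.span ℂ {u * u * u} ⊔ V := by
      refine lt_of_le_of_ne le_sup_right ?_
      intro h
      apply hu3V
      rw [h]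
      exact Submodule.mem_sup_left (Submodule.mem_span_singleton_self _)
    have hlt := Submodule.finrank_lt_finrank_of_lt hVlt
    have hWeq : Submodule.span ℂ {u * u * u} ⊔ V = R 18 :=
      Submodule.eq_of_le_of_finrank_le hWle (by omega)
    rw [← hWeq] at hw2
    obtain ⟨y, hy, z, hz, hyz⟩ := Submodule.mem_sup.1 hw2
    obtain ⟨μ, rfl⟩ := Submodule.mem_span_singleton.1 hy
    refine ⟨μ, ?_⟩
    rw [← hyz, Algebra.smul_def]
    have : algebraMap ℂ K μ * (u * u * u) + z + -(algebraMap ℂ K μ) * (u * u * u) = z := by ring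
    rw [this]
    exact B_sub_A h6A hz
  have hrel := (hww.add' (huuu.cmul (neg_mem (const_mem_F0 μ)))).eq_zero
    (by rw [hmp]; norm_num) hμ
  have hp2eq : p2 = algebraMap ℂ K μ * q1 ^ 2 := by
    field_simp at hrel
    linear_combination hrel
  have hμ0 : algebraMap ℂ K μ ≠ 0 := by
    intro h
    rw [h, zero_mul] at hp2eq
    exact hp20 hp2eq
  -- conclusion
  have hchar : CharZero K := charZero_of_injective_algebraMap (algebraMap ℂ K).injective
  obtain ⟨L, hL, h1, hxL⟩ := exists_complement hq1 hq10'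
  have h2K : (2 : K) ≠ 0 := two_ne_zero_K
  set m := algebraMap ℂ K μ with hm
  have hhalf : ∀ f ∈ P x 4, f / 2 ∈ P x 4 := by
    intro f hf
    have : f / 2 = algebraMap ℂ K (1 / 2) * f := by
      rw [map_div₀, map_one, map_ofNat]; ring
    rw [this]
    exact P_mul (P_const _ 0) hf (zero_add _)
  have D : Ctx x R s q1 L (s - p4 / 2) (m * u) (m * w) := by
    refine ⟨S, by rw [hmp]; norm_num, h1, hxL, P_le_R S hq1, P_le_R S hL, P_F0 hq1, P_F0 hL,
      hq10', ?_, ?_, ?_, ?_, ?_, ?_, ?_, ?_, ?_⟩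
    · exact (R 4).sub_mem hs (P_le_R S (hhalf _ hp4))
    · exact S.mul_mem' (S.const_mem _ 0) hu (by norm_num)
    · exact S.mul_mem' (S.const_mem _ 0) hw (by norm_num)
    · rw [sub_eq_add_neg]
      exact Ld.s_one.add (Submodule.neg_mem _ (const_mem_A one_pos (P_F0 (hhalf _ hp4))))
    · exact ⟨m * p2⁻¹, mul_ne_zero hμ0 hp2i, hLu.cmul (const_mem_F0 _)⟩
    · intro f hf
      rw [B_eq S hx he1 hi1 3 (by rw [hD]; rfl)] at hf
      obtain ⟨p, _, rfl⟩ := mem_B.1 hf
      simp only [Finset.univ_unique, Finset.sum_singleton, Matrix.cons_val_fin_one, mul_one]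
      exact aeval_mem_F0 x _
    · intro f hf
      rw [B_eq S hx he2 hi2 5 (by rw [hD]; rfl)] at hf
      refine B_sub_A ?_ hf
      intro i
      fin_cases i
      · exact hsA 0
      · exact hone 1
    · intro f hf
      rw [B_eq S hx he4 hi4 11 (by rw [hD]; rfl)] at hf
      exact B_sub_A h4A hf
    · intro f hf
      rw [B_eq S hx he5 hi5 14 (by rw [hD]; rfl)] at hf
      exact B_sub_A h5A hf
  refine D.false hL (p := p8 + p4 ^ 2 / 4) (a := p4 / 2 - q4) (b := -(m * q6))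
    (c := -(m * (q6 * (p4 / 2) + q10))) ?_ ?_ ?_ ?_ ?_ ?_
  · refine (P x 8).add_mem hp8 ?_
    have : p4 ^ 2 / 4 = (p4 / 2) * (p4 / 2) := by ring
    rw [this]
    exact P_mul (hhalf _ hp4) (hhalf _ hp4) rfl
  · exact (P x 4).sub_mem (hhalf _ hp4) hq4
  · exact (P x 6).neg_mem (P_mul (P_const _ 0) hq6 (zero_add _))
  · refine (P x 10).neg_mem (P_mul (P_const _ 0) ((P x 10).add_mem ?_ hq10) (zero_add _))
    exact P_mul hq6 (hhalf _ hp4) rfl
  · rw [hp2eq] at hpeq
    linear_combination hpeq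
  · linear_combination (-m) * hqeq

end Pool.Agent.H607R3.OO
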