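import Mathlib

set_option autoImplicit false

open Polynomial

namespace Pool.Agent.H607R3.OO

/-- The formal properties of the spaces of sections `R m` that the argument uses. -/
structure Sys {K : Type} [Field K] [Algebra ℂ K] (x : K) (R : ℕ → Submodule ℂ K) : Prop where
  one_mem : (1 : K) ∈ R 0
  one_mem1 : (1 : K) ∈ R 1
  x_mem : x ∈ R 1
  mul_mem : ∀ {m n : ℕ} {f g : K}, f ∈ R m → g ∈ R n → f * g ∈ R (m + n)
  sat : ∀ {m : ℕ} {f : K}, f ∈ R (m + 1) → x * f ∈ R (m + 1) → f ∈ R m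
  sq : ∀ {m : ℕ} {f : K}, f * f ∈ R (2 * m) → f ∈ R m

variable {K : Type} [Field K] [Algebra ℂ K] {x : K} {R : ℕ → Submodule ℂ K}

namespace Sys

theorem mul_mem' (S : Sys x R) {m n k : ℕ} {f g : K} (hf : f ∈ R m) (hg : g ∈ R n)
    (h : m + n = k) : f * g ∈ R k := h ▸ S.mul_mem hf hg

theorem mono_succ (S : Sys x R) {m : ℕ} {f : K} (hf : f ∈ R m) : f ∈ R (m + 1) := by
  have := S.mul_mem hf S.one_mem1
  simpa using this

theorem mono (S : Sys x R) {m n : ℕ} (h : m ≤ n) {f : K} (hf : f ∈ R m) : f ∈ R n := by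
  induction n, h using Nat.le_induction with
  | base => exact hf
  | succ n _ ih => exact S.mono_succ ih

theorem const_mem (S : Sys x R) (c : ℂ) (m : ℕ) : algebraMap ℂ K c ∈ R m := by
  rw [Algebra.algebraMap_eq_smul_one]
  exact (R m).smul_mem c (S.mono (Nat.zero_le m) S.one_mem)

theorem pow_mem (S : Sys x R) {f : K} {m : ℕ} (hf : f ∈ R m) (j : ℕ) : f ^ j ∈ R (j * m) := by
  induction j with
  | zero => simpa using S.one_mem
  | succ j ih => 
    rw [pow_succ, Nat.succ_mul]
    exact S.mul_mem ih hf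

theorem pow_mem1 (S : Sys x R) {f : K} (hf : f ∈ R 1) (j : ℕ) : f ^ j ∈ R j := by
  have := S.pow_mem hf j
  simpa using this

theorem aeval_mem (S : Sys x R) {m : ℕ} {p : ℂ[X]} (hp : p.natDegree ≤ m) : aeval x p ∈ R m := by
  rw [aeval_eq_sum_range]
  refine Submodule.sum_mem _ fun i hi => (R m).smul_mem _ ?_
  refine S.mono ?_ (S.pow_mem1 S.x_mem i)
  have := Finset.mem_range.1 hi
  omega

/-- Saturation with respect to a basis of linear forms. -/
theorem sat2 (S : Sys x R) {l L : K} (h1 : (1 : K) ∈ Submodule.span ℂ ({l, L} : Set K))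
    (hx : x ∈ Submodule.span ℂ ({l, L} : Set K)) {m : ℕ} {f : K}
    (hl : l * f ∈ R (m + 1)) (hL : L * f ∈ R (m + 1)) : f ∈ R m := by
  obtain ⟨a, b, hab⟩ := Submodule.mem_span_pair.1 h1
  obtain ⟨c, d, hcd⟩ := Submodule.mem_span_pair.1 hx
  apply S.sat
  · have : f = a • (l * f) + b • (L * f) := by
      rw [← smul_mul_assoc, ← smul_mul_assoc, ← add_mul, hab, one_mul]
    rw [this]
    exact (R _).add_mem ((R _).smul_mem _ hl) ((R _).smul_mem _ hL)
  · have : x * f = c • (l * f) + d • (L * f) := by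
      rw [← smul_mul_assoc, ← smul_mul_assoc, ← add_mul, hcd]
    rw [this]
    exact (R _).add_mem ((R _).smul_mem _ hl) ((R _).smul_mem _ hL)

/-- Saturation: `l f ∈ R (m+1)` and `L ^ j f ∈ R (m + j)` imply `f ∈ R m`. -/
theorem sat3 (S : Sys x R) {l L : K} (h1 : (1 : K) ∈ Submodule.span ℂ ({l, L} : Set K))
    (hx : x ∈ Submodule.span ℂ ({l, L} : Set K)) (hLm : L ∈ R 1) {m : ℕ} {f : K} (j : ℕ)
    (hl : l * f ∈ R (m + 1)) (hL : L ^ j * f ∈ R (m + j)) : f ∈ R m := by
  induction j with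
  | zero => simpa using hL
  | succ j ih =>
    apply ih
    apply S.sat2 h1 hx
    · have : l * (L ^ j * f) = L ^ j * (l * f) := by ring
      rw [this]
      exact S.mul_mem' (S.pow_mem1 hLm j) hl (by omega)
    · have : L * (L ^ j * f) = L ^ (j + 1) * f := by ring
      rw [this]
      exact hL

/-- The version used at a finite point. -/
theorem sat_point (S : Sys x R) (c : ℂ) (q : ℂ[X]) (hq : q.eval c ≠ 0) {m N : ℕ} {g : K}
    (h1 : (x - algebraMap ℂ K c) * g ∈ R (m + 1)) (h2 : aeval x q * g ∈ R N) : g ∈ R m := by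
  have hdvd : (X - C c) ∣ (q - C (q.eval c)) := X_sub_C_dvd_sub_C_eval
  obtain ⟨r, hr⟩ := hdvd
  have hr' : aeval x q = algebraMap ℂ K (q.eval c) + (x - algebraMap ℂ K c) * aeval x r := by
    have := congrArg (aeval x) hr
    simp only [map_sub, map_mul, aeval_X, aeval_C] at this
    linear_combination this
  have hg : g = algebraMap ℂ K ((q.eval c)⁻¹) *
      (aeval x q * g - aeval x r * ((x - algebraMap ℂ K c) * g)) := by
    rw [hr']
    have : algebraMap ℂ K ((q.eval c)⁻¹) * algebraMap ℂ K (q.eval c) = 1 := by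
      rw [← map_mul, inv_mul_cancel₀ hq, map_one]
    linear_combination (-g) * this
  have h3 : g ∈ R (m + (N + r.natDegree + (m + 1))) := by
    rw [hg]
    refine S.mul_mem' (S.const_mem _ 0) ?_ (zero_add _)
    refine (R _).sub_mem (S.mono (by omega) h2) ?_
    exact S.mono (by omega) (S.mul_mem (S.aeval_mem (le_refl _)) h1)
  refine S.sat3 (l := x - algebraMap ℂ K c) (L := 1) ?_ ?_ S.one_mem1
    (N + r.natDegree + (m + 1)) h1 (by simpa using h3)
  · exact Submodule.subset_span (by simp)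
  · refine Submodule.mem_span_pair.2 ⟨1, c, ?_⟩
    rw [Algebra.algebraMap_eq_smul_one]
    simp

end Sys

end Pool.Agent.H607R3.OO
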